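import Pool.Agent.H42.PS.Fin
import Pool.Agent.H42.PS.LowQ

/-!
# The lower bound for groups with cells

`chapterC`: one theory `T` such that refutations which are symmetric under a group with `r` cells have size at least
`2 ^ (r ^ (1 - δ) / C)`; nothing is lost in `n`. `chapterCq`: the corollary for prime powers which divide the order.
-/

set_option autoImplicit false
set_option linter.unusedSectionVars false

namespace Pool.Agent.H42.PS

open Pool.Agent.H42.CS (Ax Atom Lit Gate Circuit Step Refutation)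
open Pool.Agent.H79.CQ

theorem chapterC (δ : ℝ) (h0 : 0 < δ) (h1 : δ < 1) :
    ∃ (Rel : ℕ → Type) (T : Set (Ax Rel)) (C : ℕ), 0 < C ∧ T.Finite ∧
      (∀ A ∈ T, A.lits.Finite ∧ A.ex.Finite) ∧
      ∀ n : ℕ, 2 ≤ n →
        (∃ R : Refutation T (Fin n), R.size ≤ n ^ C ∧ ∀ a, R.C.rank a ≤ C) ∧
        ∀ (Γ : Subgroup (Equiv.Perm (Fin n))) (p : ℕ) (_ : Fact p.Prime) (r : ℕ) (M : Cells p (Fin n) r),
          M.H ≤ Γ → ∀ (R : Refutation T (Fin n)) (B : ℕ), LocSymm R Γ B →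
            (2 : ℝ) ^ ((r : ℝ) ^ (1 - δ) / C) ≤ R.size * B := by
  obtain ⟨d, C1, hd, hC1, hnum⟩ := numeric k8 δ h0 h1
  obtain ⟨c2, hup⟩ := upper d
  refine ⟨Re d, T d, 2 * max C1 (max c2 7), by omega, T_finite d, fun A hA => T_lits A hA, ?_⟩
  intro n hn
  constructor
  · obtain ⟨R, hs, hr⟩ := hup n hn
    refine ⟨R, hs.trans (Nat.pow_le_pow_right (by omega) (by omega)), fun a => ?_⟩
    have := hr a
    omega
  · intro Γ p hp r M hM R B hR
    have : Fact p.Prime := hp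
    have : Nonempty (Fin n) := ⟨⟨0, by omega⟩⟩
    have hB : 1 ≤ B := by
      obtain ⟨H, -, h2, -⟩ := hR ∅ R.empty_mem
      have h3 : H.relIndex Γ ≠ 0 := by
        unfold Subgroup.relIndex
        exact Subgroup.index_ne_zero_of_finite
      omega
    have hR' : ∀ Λ ∈ R.lines, ∃ H : Subgroup M.H, H.index ≤ B ∧ ∀ g ∈ H, ∀ x ∈ Λ,
        ∃ y ∈ Λ, y.pos = x.pos ∧ H16.LE.Img R.C (g : Equiv.Perm (Fin n)) x.node y.node := by
      intro Λ hΛ
      obtain ⟨H, h1, h2, h3⟩ := hR Λ hΛ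
      refine ⟨H.subgroupOf M.H, ?_, fun g hg x hx => h3 _ hg x hx⟩
      have h4 : H.relIndex Γ ≠ 0 := by
        unfold Subgroup.relIndex
        exact Subgroup.index_ne_zero_of_finite
      exact (Subgroup.relIndex_le_of_le_right hM h4).trans h2
    have hs2 := size_ge_two R
    obtain ⟨S, hS⟩ : ∃ S, S = 2 * B * R.size := ⟨_, rfl⟩
    have hS2 : 2 ≤ S := by
      rw [hS]
      nlinarith
    have key0 := hnum (max C1 (max c2 7)) (le_max_left _ _) r 2 r S le_rfl
      (by rw [show Nat.log 2 2 = 1 from by norm_num [Nat.log]]; omega) hS2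
      (fun L hL hr => by
        rw [hS]
        exact lower hd hL hr M R B hR')
    have hC0 : (0 : ℝ) < (max C1 (max c2 7) : ℕ) := by
      exact_mod_cast (show 0 < max C1 (max c2 7) by omega)
    obtain ⟨E, hE⟩ : ∃ E : ℝ, E = (r : ℝ) ^ (1 - δ) := ⟨_, rfl⟩
    have key : (2 : ℝ) ^ (E / ((max C1 (max c2 7) : ℕ) : ℝ)) ≤ S := by
      rw [show ((2 : ℕ) : ℝ) = 2 by norm_num, Real.logb_self_eq_one (by norm_num), div_one, ← hE] at key0
      exact key0
    rw [← hE]
    have hSr : (S : ℝ) ≤ ((R.size : ℝ) * B) ^ 2 := by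
      have h5 : S ≤ (R.size * B) ^ 2 := by
        rw [hS, pow_two]
        have h6 : 2 ≤ R.size * B := le_trans hs2 (Nat.le_mul_of_pos_right _ hB)
        calc 2 * B * R.size = 2 * (R.size * B) := by ring
          _ ≤ (R.size * B) * (R.size * B) := Nat.mul_le_mul_right _ h6
      exact_mod_cast h5
    have hsq : ((2 : ℝ) ^ (E / ((2 * max C1 (max c2 7) : ℕ) : ℝ))) ^ 2 ≤ ((R.size : ℝ) * B) ^ 2 := by
      refine le_trans (le_of_eq ?_) (key.trans hSr)
      rw [← Real.rpow_natCast, ← Real.rpow_mul (by norm_num)]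
      congr 1
      push_cast
      field_simp
    exact le_of_sq_le_sq hsq (by positivity)

/-- `log_n q ≤ r` for the cells of a prime power which divides the order of the group -/
theorem cells_of_dvd {n : ℕ} (hn : 2 ≤ n) (Γ : Subgroup (Equiv.Perm (Fin n))) (q : ℕ) (hq : IsPrimePow q)
    (hdiv : q ∣ Nat.card Γ) :
    ∃ (p : ℕ) (_ : Fact p.Prime) (r : ℕ) (M : Cells p (Fin n) r), M.H ≤ Γ ∧ Real.logb n q ≤ r := by
  obtain ⟨p, h, hp', -, rfl⟩ := hq
  have hp : p.Prime := hp'.nat_prime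
  have : Fact p.Prime := ⟨hp⟩
  obtain ⟨r, M, hM, hh⟩ := exists_cells_q Γ h hdiv
  refine ⟨p, ⟨hp⟩, r, M, hM, ?_⟩
  have hn1 : (1 : ℝ) < n := by exact_mod_cast (by omega : 1 < n)
  have h7 : p ^ h ≤ n ^ r := by
    calc p ^ h ≤ p ^ (r * Nat.log p n) := Nat.pow_le_pow_right hp.pos hh
      _ = (p ^ Nat.log p n) ^ r := by rw [← pow_mul, mul_comm]
      _ ≤ n ^ r := Nat.pow_le_pow_left (Nat.pow_log_le_self p (by omega)) r
  rw [Real.logb_le_iff_le_rpow hn1 (by exact_mod_cast Nat.pow_pos hp.pos), Real.rpow_natCast]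
  exact_mod_cast h7

end Pool.Agent.H42.PS
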