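import Pool.Agent.H79.CQ.Grd
import Mathlib.GroupTheory.Perm.Cycle.Basic
import Mathlib.GroupTheory.Perm.Cycle.Type

/-!
# Cells from disjoint cycles of prime length

`cells_of_cycles`: `h` pairwise disjoint `p`-cycles generate a group with `h` cells (the blocks are single points).
-/

set_option autoImplicit false

namespace Pool.Agent.H42.PS

open Pool.Agent.H79.CQ (Cells)
open Equiv

section
variable {p n h : ℕ} [hp : Fact p.Prime] {σ : Fin h → Perm (Fin n)}

theorem cyc_iff {f : Perm (Fin n)} (hf : f.IsCycle) (hc : f.support.card = p) {x : Fin n} (hx : f x ≠ x)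
    (k l : ℤ) : (f ^ k) x = (f ^ l) x ↔ (k : ZMod p) = (l : ZMod p) := by
  have ho : orderOf f = p := by rw [hf.orderOf, hc]
  constructor
  · intro h1
    have h2 : (f ^ (k - l)) x = x := by
      rw [sub_eq_neg_add, zpow_add, Perm.mul_apply, h1, ← Perm.mul_apply, ← zpow_add]
      simp
    have hpp : (0 : ℤ) < p := by exact_mod_cast hp.out.pos
    obtain ⟨r, hr⟩ : ∃ r : ℕ, (r : ℤ) = (k - l) % p :=
      ⟨((k - l) % p).toNat, Int.toNat_of_nonneg (Int.emod_nonneg _ hpp.ne')⟩
    have h3 : f ^ (k - l) = f ^ r := by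
      rw [← zpow_natCast f r, hr, ← ho, zpow_mod_orderOf]
    rw [h3] at h2
    have h4 : f ^ r = 1 := (hf.pow_eq_one_iff' hx).2 h2
    have h5 : p ∣ r := by
      rw [← ho]
      exact orderOf_dvd_of_pow_eq_one h4
    have h6 : ((k - l : ℤ) : ZMod p) = 0 := by
      rw [ZMod.intCast_zmod_eq_zero_iff_dvd]
      have h7 : (p : ℤ) ∣ (k - l) % p := by
        rw [← hr]
        exact_mod_cast h5
      exact (Int.dvd_iff_emod_eq_zero).2 (by
        have h8 := Int.emod_emod_of_dvd (k - l) (dvd_refl (p : ℤ))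
        have h9 := Int.emod_eq_zero_of_dvd h7
        omega)
    push_cast at h6
    exact sub_eq_zero.1 h6
  · intro h1
    have h2 : (p : ℤ) ∣ k - l := by
      rw [← ZMod.intCast_zmod_eq_zero_iff_dvd]
      push_cast
      rw [h1, sub_self]
    obtain ⟨q, hq⟩ := h2
    have h3 : k = l + p * q := by omega
    have h4 : f ^ ((p : ℤ) * q) = 1 := by
      rw [zpow_mul, zpow_natCast, ← ho, pow_orderOf_eq_one, one_zpow]
    rw [h3, zpow_add, h4, mul_one]

theorem cyc_key (hd : ∀ i j, i ≠ j → (σ i).Disjoint (σ j)) {x : Fin h → Fin n}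
    (hx : ∀ i, σ i (x i) ≠ x i) :
    ∀ g ∈ Subgroup.closure (Set.range σ), (∀ j, Commute g (σ j)) ∧ ∀ i, ∃ k : ℤ, g (x i) = (σ i ^ k) (x i) := by
  intro g hg
  refine Subgroup.closure_induction (p := fun g _ => (∀ j, Commute g (σ j)) ∧
    ∀ i, ∃ k : ℤ, g (x i) = (σ i ^ k) (x i)) ?_ ?_ ?_ ?_ hg
  · rintro _ ⟨j, rfl⟩
    refine ⟨fun i => ?_, fun i => ?_⟩
    · by_cases hij : j = i
      · subst hij
        exact Commute.refl _
      · exact (hd j i hij).commute
    · by_cases hij : j = i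
      · subst hij
        exact ⟨1, by rw [zpow_one]⟩
      · refine ⟨0, ?_⟩
        rcases hd j i hij (x i) with h1 | h1
        · rw [h1, zpow_zero]
          rfl
        · exact absurd h1 (hx i)
  · exact ⟨fun j => Commute.one_left _, fun i => ⟨0, by rw [zpow_zero]⟩⟩
  · rintro g g' - - ⟨h1, h2⟩ ⟨h3, h4⟩
    refine ⟨fun j => (h1 j).mul_left (h3 j), fun i => ?_⟩
    obtain ⟨k, hk⟩ := h2 i
    obtain ⟨k', hk'⟩ := h4 i
    refine ⟨k' + k, ?_⟩
    rw [Perm.mul_apply, hk', ← Perm.mul_apply, ((h1 i).zpow_right k').eq, Perm.mul_apply, hk,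
      ← Perm.mul_apply, ← zpow_add]
  · rintro g - ⟨h1, h2⟩
    refine ⟨fun j => (h1 j).inv_left, fun i => ?_⟩
    obtain ⟨k, hk⟩ := h2 i
    refine ⟨-k, ?_⟩
    have h3 : g ((σ i ^ (-k)) (x i)) = x i := by
      rw [← Perm.mul_apply, ((h1 i).zpow_right (-k)).eq, Perm.mul_apply, hk, ← Perm.mul_apply, ← zpow_add]
      simp
    rw [Perm.inv_eq_iff_eq, h3]

theorem cyc_onto (hd : ∀ i j, i ≠ j → (σ i).Disjoint (σ j)) {x : Fin h → Fin n}
    (hx : ∀ i, σ i (x i) ≠ x i) (v : Fin h → ℤ) (s : Finset (Fin h)) :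
    ∃ g ∈ Subgroup.closure (Set.range σ), (∀ i ∈ s, g (x i) = (σ i ^ v i) (x i)) ∧
      ∀ i, i ∉ s → g (x i) = x i := by
  classical
  induction s using Finset.induction_on with
  | empty => exact ⟨1, one_mem _, by simp, fun i _ => rfl⟩
  | insert j s hj ih =>
    obtain ⟨g, hg, h1, h2⟩ := ih
    have hσ : σ j ^ v j ∈ Subgroup.closure (Set.range σ) :=
      Subgroup.zpow_mem _ (Subgroup.subset_closure (Set.mem_range_self j)) _
    have hfix : ∀ i, i ≠ j → (σ j ^ v j) (x i) = x i := by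
      intro i hij
      have h3 : σ j (x i) = x i := by
        rcases hd j i (Ne.symm hij) (x i) with h4 | h4
        · exact h4
        · exact absurd h4 (hx i)
      exact Perm.zpow_apply_eq_self_of_apply_eq_self h3 _
    refine ⟨g * σ j ^ v j, mul_mem hg hσ, ?_, ?_⟩
    · intro i hi
      rcases Finset.mem_insert.1 hi with rfl | hi
      · rw [Perm.mul_apply, ← Perm.mul_apply, (((cyc_key hd hx g hg).1 i).zpow_right (v i)).eq,
          Perm.mul_apply, h2 i hj]
      · have hij : i ≠ j := fun hij => hj (hij ▸ hi)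
        rw [Perm.mul_apply, hfix i hij, h1 i hi]
    · intro i hi
      rw [Finset.mem_insert, not_or] at hi
      rw [Perm.mul_apply, hfix i hi.1, h2 i hi.2]

theorem cells_of_cycles (hc : ∀ i, (σ i).IsCycle ∧ (σ i).support.card = p)
    (hd : ∀ i j, i ≠ j → (σ i).Disjoint (σ j)) :
    ∃ M : Cells p (Fin n) h, M.H = Subgroup.closure (Set.range σ) := by
  classical
  have hx : ∀ i, ∃ x, σ i x ≠ x := fun i => by
    obtain ⟨x, hx, -⟩ := (hc i).1
    exact ⟨x, hx⟩
  choose x hx using hx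
  have hkey := cyc_key hd hx
  choose e he using fun (g : Subgroup.closure (Set.range σ)) (i : Fin h) => (hkey g g.2).2 i
  have hiff : ∀ (i : Fin h) (k l : ℤ), (σ i ^ k) (x i) = (σ i ^ l) (x i) ↔ (k : ZMod p) = (l : ZMod p) :=
    fun i k l => cyc_iff (hc i).1 (hc i).2 (hx i) k l
  have hval : ∀ b : ZMod p, (((b.val : ℕ) : ℤ) : ZMod p) = b := fun b => by
    rw [Int.cast_natCast, ZMod.natCast_zmod_val]
  refine ⟨⟨Subgroup.closure (Set.range σ), fun i b => {(σ i ^ ((b.val : ℕ) : ℤ)) (x i)},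
    fun g i => ((e g i : ℤ) : ZMod p), ?_, ?_, fun i b => Set.singleton_nonempty _, ?_, ?_⟩, rfl⟩
  · intro g g'
    funext i
    rw [Pi.add_apply, ← Int.cast_add, ← hiff i, ← he (g * g') i, add_comm, zpow_add, Perm.mul_apply, ← he g i,
      ← Perm.mul_apply, ← ((hkey g g.2).1 i |>.zpow_right (e g' i)).eq, Perm.mul_apply, ← he g' i]
    rfl
  · intro v
    obtain ⟨g, hg, h1, -⟩ := cyc_onto hd hx (fun i => (((v i).val : ℕ) : ℤ)) Finset.univ
    refine ⟨⟨g, hg⟩, ?_⟩
    funext i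
    have h2 := (he ⟨g, hg⟩ i).symm.trans (h1 i (Finset.mem_univ i))
    rw [hiff i, hval] at h2
    exact h2
  · intro i b j c hne
    rw [Set.disjoint_singleton]
    intro heq
    by_cases hij : i = j
    · subst hij
      rw [hiff i, hval, hval] at heq
      exact hne (by rw [heq])
    · have h1 : σ i ((σ i ^ ((b.val : ℕ) : ℤ)) (x i)) ≠ (σ i ^ ((b.val : ℕ) : ℤ)) (x i) := by
        rw [← Perm.mem_support, Perm.zpow_apply_mem_support, Perm.mem_support]
        exact hx i
      have h2 : σ j ((σ j ^ ((c.val : ℕ) : ℤ)) (x j)) ≠ (σ j ^ ((c.val : ℕ) : ℤ)) (x j) := by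
        rw [← Perm.mem_support, Perm.zpow_apply_mem_support, Perm.mem_support]
        exact hx j
      rcases hd i j hij ((σ i ^ ((b.val : ℕ) : ℤ)) (x i)) with h3 | h3
      · exact h1 h3
      · rw [heq] at h3
        exact h2 h3
  · intro g i b
    rw [Set.image_singleton, Set.singleton_eq_singleton_iff, ← Perm.mul_apply,
      ((hkey g g.2).1 i |>.zpow_right ((b.val : ℕ) : ℤ)).eq, Perm.mul_apply, he g i, ← Perm.mul_apply, ← zpow_add,
      hiff i, hval, Int.cast_add, hval]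

end

end Pool.Agent.H42.PS
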