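import Pool.Agent.H42.PS.Loc
import Pool.Agent.H29.NS.Cos
import Pool.Agent.H79.CQ.Fin

set_option autoImplicit false

namespace Pool.Agent.H42.PS

open Pool.Agent.H42.CS
open Pool.Agent.H16.LE (Img)

/-- every line of the refutation `R` is, up to the order of the members of the gates, invariant under
a subgroup of `Γ` of index at most `B` -/
def LocSymm {Rel : ℕ → Type} {n : ℕ} {T : Set (Ax Rel)} (R : Refutation T (Fin n))
    (Γ : Subgroup (Equiv.Perm (Fin n))) (B : ℕ) : Prop :=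
  ∀ Λ ∈ R.lines, ∃ H : Subgroup (Equiv.Perm (Fin n)), H ≤ Γ ∧ H.relIndex Γ ≤ B ∧
    ∀ g ∈ H, ∀ x ∈ Λ, ∃ y ∈ Λ, y.pos = x.pos ∧ Img R.C g x.node y.node

theorem final :
    (∀ (Rel : ℕ → Type) (T : Set (Ax Rel)), T.Finite → (∀ A ∈ T, A.lits.Finite ∧ A.ex.Finite) →
      ∃ c : ℕ, ∀ (n : ℕ) (Γ H : Subgroup (Equiv.Perm (Fin n))), 2 ≤ n → H ≤ Γ → Group.IsNilpotent H →
        ∀ R : Refutation T (Fin n),
          (∀ h : ℕ, (∀ p : ℕ, p.Prime → ¬ p ^ (h + 1) ∣ Nat.card H) →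
            ∃ R' : Refutation T (Fin n), R'.Symm Γ ∧
              R'.size ≤ H.relIndex Γ * (R.size * n ^ (c * (h + 1)))) ∧
          (IsCyclic H → ∃ R' : Refutation T (Fin n), R'.Symm Γ ∧
            R'.size ≤ H.relIndex Γ * (R.size * n ^ c))) ∧
    ∀ δ : ℝ, 0 < δ → δ < 1 →
      ∃ (Rel : ℕ → Type) (T : Set (Ax Rel)) (C : ℕ), 0 < C ∧ T.Finite ∧
        (∀ A ∈ T, A.lits.Finite ∧ A.ex.Finite) ∧ ∀ n : ℕ, 2 ≤ n →
          (∃ R : Refutation T (Fin n), R.size ≤ n ^ C ∧ ∀ a, R.C.rank a ≤ C) ∧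
          ∀ (Γ : Subgroup (Equiv.Perm (Fin n))) (p h : ℕ), p.Prime → p ^ h ∣ Nat.card Γ →
            ∀ R : Refutation T (Fin n),
              (∀ B : ℕ, LocSymm R Γ B →
                (2 : ℝ) ^ (((h : ℝ) / Real.logb 2 n) ^ (1 - δ) / C) ≤ R.size * B) ∧
              (R.Symm Γ → (2 : ℝ) ^ (((h : ℝ) / Real.logb 2 n) ^ (1 - δ) / C) ≤ R.size) := by
  constructor
  · intro Rel T hT hl
    obtain ⟨c1, h1⟩ := H29.NS.nil_index_exp hT hl
    obtain ⟨c2, h2⟩ := H29.NS.nil_index_cyc hT hl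
    refine ⟨max c1 c2, fun n Γ H hn hHΓ hH R => ⟨fun h hh => ?_, fun hcy => ?_⟩⟩
    · obtain ⟨R', h3, h4⟩ := h1 n h Γ H hn hHΓ hH hh R
      refine ⟨R', h3, h4.trans (Nat.mul_le_mul_left _ (Nat.mul_le_mul_left _
        (Nat.pow_le_pow_right (by omega) ?_)))⟩
      exact Nat.mul_le_mul_right _ (le_max_left _ _)
    · obtain ⟨R', h3, h4⟩ := h2 n Γ H hn hHΓ hcy R
      exact ⟨R', h3, h4.trans (Nat.mul_le_mul_left _ (Nat.mul_le_mul_left _
        (Nat.pow_le_pow_right (by omega) (le_max_right _ _))))⟩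
  · intro δ h0 h1
    obtain ⟨Rel, T, C, hC, hT, hl, hmain⟩ := H79.CQ.chapterB δ h0 h1
    refine ⟨Rel, T, 2 * C, by omega, hT, hl, fun n hn => ?_⟩
    obtain ⟨⟨R0, hR0, hr0⟩, hlow⟩ := hmain n hn
    refine ⟨⟨R0, hR0.trans (Nat.pow_le_pow_right (by omega) (by omega)),
      fun a => (hr0 a).trans (by omega)⟩, ?_⟩
    intro Γ p h hp hdiv R
    have hC0 : (0 : ℝ) < C := by exact_mod_cast hC
    have hE0 : (0 : ℝ) ≤ ((h : ℝ) / Real.logb 2 n) ^ (1 - δ) := by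
      apply Real.rpow_nonneg
      apply div_nonneg (Nat.cast_nonneg _)
      exact Real.logb_nonneg (by norm_num) (by exact_mod_cast (by omega : 1 ≤ n))
    obtain ⟨E, hE⟩ : ∃ E : ℝ, E = ((h : ℝ) / Real.logb 2 n) ^ (1 - δ) := ⟨_, rfl⟩
    rw [← hE] at hE0 ⊢
    constructor
    · intro B hB
      have h2 := hlow Γ p h hp hdiv R B hB
      rw [← hE] at h2
      refine le_trans (Real.rpow_le_rpow_of_exponent_le (by norm_num) ?_) h2
      push_cast
      exact div_le_div_of_nonneg_left hE0 hC0 (by linarith)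
    · intro hs
      have h2 := hlow Γ p h hp hdiv R R.size (symm_local hs)
      rw [← hE] at h2
      have h3 : ((2 : ℝ) ^ (E / ((2 * C : ℕ) : ℝ))) ^ 2 ≤ (R.size : ℝ) ^ 2 := by
        rw [← Real.rpow_natCast, ← Real.rpow_mul (by norm_num)]
        have h4 : E / ((2 * C : ℕ) : ℝ) * ((2 : ℕ) : ℝ) = E / C := by
          push_cast
          field_simp
        rw [h4, pow_two]
        exact h2
      exact le_of_sq_le_sq h3 (Nat.cast_nonneg _)

end Pool.Agent.H42.PS
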