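import Pool.Agent.H42.PS.Fin
import Pool.Agent.H29.SV.SExpF
import Pool.Agent.H79.SL.RkC
import Pool.Agent.H79.SL.RkP
import Pool.Agent.H79.CQ.FinQ

/-!
# The cost of symmetry by the sectional rank

`solv_rank`: for a solvable subgroup `H` of `Γ` of sectional rank at most `r` the cost of symmetry under `Γ` is at most
`[Γ : H] n ^ (c (r + 1))`. `final_rank`: with the lower bound `2 ^ ((log_n q) ^ (1 - δ) / C)` for every prime power `q`
which divides the order of `Γ`.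
-/

set_option autoImplicit false

namespace Pool.Agent.H42.PS

open Pool.Agent.H42.CS
open Pool.Agent.H16.LE (Img)
open Pool.Agent.H79.SL (RankLe rk_stab rk_oo)
open Pool.Agent.H29.SV (solv_main prim8)

theorem solv_rank {Rel : ℕ → Type} {T : Set (Ax Rel)} (hT : T.Finite)
    (hl : ∀ A ∈ T, A.lits.Finite ∧ A.ex.Finite) :
    ∃ c : ℕ, ∀ (n r : ℕ) (Γ H : Subgroup (Equiv.Perm (Fin n))), 2 ≤ n → H ≤ Γ → Group.IsSolvable H →
      RankLe H r → ∀ R : Refutation T (Fin n), ∃ R' : Refutation T (Fin n), R'.Symm Γ ∧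
        R'.size ≤ H.relIndex Γ * (R.size * n ^ (c * (r + 1))) := by
  obtain ⟨c, hc⟩ := solv_main hT hl
  refine ⟨17 * c, ?_⟩
  intro n r Γ H hn hH hs hr R
  obtain ⟨R1, h3, h4⟩ := hc n H (n ^ (8 * r)) (n ^ (8 * r)) hn hs (fun x => rk_stab prim8 hs hr x)
    (fun p hp => rk_oo (by omega) hs hr hp) R
  obtain ⟨R2, h5, h6⟩ := H29.NS.sym_index hH R1 h3
  refine ⟨R2, h5, h6.trans (Nat.mul_le_mul_left _ (h4.trans (Nat.mul_le_mul_left _ ?_)))⟩
  have h7 : n * n ^ (8 * r) * n ^ (8 * r) = n ^ (1 + 8 * r + 8 * r) := by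
    rw [pow_add, pow_add, pow_one]
  rw [h7, ← pow_mul]
  refine Nat.pow_le_pow_right (by omega) ?_
  have h8 : 1 + 8 * r + 8 * r ≤ 17 * (r + 1) := by omega
  calc (1 + 8 * r + 8 * r) * c ≤ 17 * (r + 1) * c := Nat.mul_le_mul_right _ h8
    _ = 17 * c * (r + 1) := by ring

/-- the cost of symmetry from both sides -/
theorem final_rank :
    (∀ (Rel : ℕ → Type) (T : Set (Ax Rel)), T.Finite → (∀ A ∈ T, A.lits.Finite ∧ A.ex.Finite) →
      ∃ c : ℕ, ∀ (n r : ℕ) (Γ H : Subgroup (Equiv.Perm (Fin n))), 2 ≤ n → H ≤ Γ → Group.IsSolvable H →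
        RankLe H r → ∀ R : Refutation T (Fin n), ∃ R' : Refutation T (Fin n), R'.Symm Γ ∧
          R'.size ≤ H.relIndex Γ * (R.size * n ^ (c * (r + 1)))) ∧
    ∀ δ : ℝ, 0 < δ → δ < 1 →
      ∃ (Rel : ℕ → Type) (T : Set (Ax Rel)) (C : ℕ), 0 < C ∧ T.Finite ∧
        (∀ A ∈ T, A.lits.Finite ∧ A.ex.Finite) ∧ ∀ n : ℕ, 2 ≤ n →
          (∃ R : Refutation T (Fin n), R.size ≤ n ^ C ∧ ∀ a, R.C.rank a ≤ C) ∧
          ∀ (Γ : Subgroup (Equiv.Perm (Fin n))) (q : ℕ), IsPrimePow q → q ∣ Nat.card Γ →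
            ∀ R : Refutation T (Fin n),
              (∀ B : ℕ, LocSymm R Γ B →
                (2 : ℝ) ^ (Real.logb n q ^ (1 - δ) / C) ≤ R.size * B) ∧
              (R.Symm Γ → (2 : ℝ) ^ (Real.logb n q ^ (1 - δ) / C) ≤ R.size) := by
  constructor
  · intro Rel T hT hl
    exact solv_rank hT hl
  · intro δ h0 h1
    obtain ⟨Rel, T, C, hC, hT, hl, hmain⟩ := H79.CQ.chapterBq δ h0 h1
    refine ⟨Rel, T, 2 * C, by omega, hT, hl, fun n hn => ?_⟩
    obtain ⟨⟨R0, hR0, hr0⟩, hlow⟩ := hmain n hn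
    refine ⟨⟨R0, hR0.trans (Nat.pow_le_pow_right (by omega) (by omega)),
      fun a => (hr0 a).trans (by omega)⟩, ?_⟩
    intro Γ q hq hdiv R
    have hC0 : (0 : ℝ) < C := by exact_mod_cast hC
    have hE0 : (0 : ℝ) ≤ Real.logb n q ^ (1 - δ) := by
      apply Real.rpow_nonneg
      refine Real.logb_nonneg (by exact_mod_cast (by omega : 1 < n)) ?_
      exact_mod_cast hq.one_lt.le
    obtain ⟨E, hE⟩ : ∃ E : ℝ, E = Real.logb n q ^ (1 - δ) := ⟨_, rfl⟩
    rw [← hE] at hE0 ⊢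
    constructor
    · intro B hB
      have h2 := hlow Γ q hq hdiv R B hB
      rw [← hE] at h2
      refine le_trans (Real.rpow_le_rpow_of_exponent_le (by norm_num) ?_) h2
      push_cast
      exact div_le_div_of_nonneg_left hE0 hC0 (by linarith)
    · intro hs
      have h2 := hlow Γ q hq hdiv R R.size (symm_local hs)
      rw [← hE] at h2
      have h3 : ((2 : ℝ) ^ (E / ((2 * C : ℕ) : ℝ))) ^ 2 ≤ (R.size : ℝ) ^ 2 := by
        rw [← Real.rpow_natCast, ← Real.rpow_mul (by norm_num)]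
        have h4 : E / ((2 * C : ℕ) : ℝ) * ((2 : ℕ) : ℝ) = E / C := by
          push_cast
          field_simp
        rw [h4, pow_two]
        exact h2
      exact le_of_sq_le_sq h3 (Nat.cast_nonneg _)

end Pool.Agent.H42.PS
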