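import Pool.Agent.H42.PS.Fin
import Pool.Agent.H29.SV.SExpF

set_option autoImplicit false

namespace Pool.Agent.H42.PS

open Pool.Agent.H42.CS
open Pool.Agent.H16.LE (Img)

/-- the cost of symmetry from both sides, upper bound for solvable subgroups; the second part is
`final.2` -/
theorem final_solv :
    (∀ (Rel : ℕ → Type) (T : Set (Ax Rel)), T.Finite → (∀ A ∈ T, A.lits.Finite ∧ A.ex.Finite) →
      ∃ c : ℕ, ∀ (n : ℕ) (Γ H : Subgroup (Equiv.Perm (Fin n))), 2 ≤ n → H ≤ Γ → Group.IsSolvable H →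
        ∀ R : Refutation T (Fin n),
          (∀ h : ℕ, (∀ p : ℕ, p.Prime → ¬ p ^ (h + 1) ∣ Nat.card H) →
            ∃ R' : Refutation T (Fin n), R'.Symm Γ ∧
              R'.size ≤ H.relIndex Γ * (R.size * n ^ (c * (h + 1)))) ∧
          (IsCyclic H → ∃ R' : Refutation T (Fin n), R'.Symm Γ ∧
            R'.size ≤ H.relIndex Γ * (R.size * n ^ c))) ∧
    ∀ δ : ℝ, 0 < δ → δ < 1 →
      ∃ (Rel : ℕ → Type) (T : Set (Ax Rel)) (C : ℕ), 0 < C ∧ T.Finite ∧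
        (∀ A ∈ T, A.lits.Finite ∧ A.ex.Finite) ∧ ∀ n : ℕ, 2 ≤ n →
          (∃ R : Refutation T (Fin n), R.size ≤ n ^ C ∧ ∀ a, R.C.rank a ≤ C) ∧
          ∀ (Γ : Subgroup (Equiv.Perm (Fin n))) (p h : ℕ), p.Prime → p ^ h ∣ Nat.card Γ →
            ∀ R : Refutation T (Fin n),
              (∀ B : ℕ, LocSymm R Γ B →
                (2 : ℝ) ^ (((h : ℝ) / Real.logb 2 n) ^ (1 - δ) / C) ≤ R.size * B) ∧
              (R.Symm Γ → (2 : ℝ) ^ (((h : ℝ) / Real.logb 2 n) ^ (1 - δ) / C) ≤ R.size) := by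
  constructor
  · intro Rel T hT hl
    obtain ⟨c1, h1⟩ := H29.SV.solv_index_exp hT hl
    obtain ⟨c2, h2⟩ := H29.NS.nil_index_cyc hT hl
    refine ⟨max c1 c2, fun n Γ H hn hHΓ hH R => ⟨fun h hh => ?_, fun hcy => ?_⟩⟩
    · obtain ⟨R', h3, h4⟩ := h1 n h Γ H hn hHΓ hH hh R
      refine ⟨R', h3, h4.trans (Nat.mul_le_mul_left _ (Nat.mul_le_mul_left _
        (Nat.pow_le_pow_right (by omega) ?_)))⟩
      exact Nat.mul_le_mul_right _ (le_max_left _ _)
    · obtain ⟨R', h3, h4⟩ := h2 n Γ H hn hHΓ hcy R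
      exact ⟨R', h3, h4.trans (Nat.mul_le_mul_left _ (Nat.mul_le_mul_left _
        (Nat.pow_le_pow_right (by omega) (le_max_right _ _))))⟩
  · exact final.2

end Pool.Agent.H42.PS
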