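import Pool.Agent.H42.PS.FinR
import Pool.Agent.H42.PS.CelL
import Pool.Agent.H42.PS.Cyc
import Pool.Agent.H79.TH.LiF

/-!
# The cost of symmetry by the sectional rank, with the exact threshold

`final_all`: as `final_rank`; the exponent of the lower bound may be any of three numbers: `log_n q` for a prime power
`q` dividing the order, the number of disjoint `p`-cycles in the group, or `m ^ 2` for groups which contain the upper
unitriangular maps of `F_p ^ m`.
-/

set_option autoImplicit false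

namespace Pool.Agent.H42.PS

open Pool.Agent.H42.CS
open Pool.Agent.H79.SL (RankLe)

/-- `t = log_n q` for a prime power `q` which divides the order of `Γ`; or `t` is the number of the members of a
family of pairwise disjoint cycles of one prime length in `Γ`; or `t = m ^ 2`, `m ≥ 2`, and `Γ` contains the upper
unitriangular maps of `F_p ^ m` for a bijection of `F_p ^ m` with the points -/
def CostExp {n : ℕ} (Γ : Subgroup (Equiv.Perm (Fin n))) (t : ℝ) : Prop :=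
  (∃ q : ℕ, IsPrimePow q ∧ q ∣ Nat.card Γ ∧ t = Real.logb n q) ∨
    (∃ (p h : ℕ) (σ : Fin h → Equiv.Perm (Fin n)), p.Prime ∧
      (∀ i, σ i ∈ Γ ∧ (σ i).IsCycle ∧ (σ i).support.card = p) ∧
      (∀ i j, i ≠ j → (σ i).Disjoint (σ j)) ∧ t = h) ∨
    ∃ (p m : ℕ) (e : (Fin m → ZMod p) ≃ Fin n), p.Prime ∧ 2 ≤ m ∧
      (∀ A : Matrix (Fin m) (Fin m) (ZMod p), (∀ i, A i i = 1) → (∀ i j, j < i → A i j = 0) →
        ∃ g ∈ Γ, ∀ v, g (e v) = e (A.mulVec v)) ∧ t = (m : ℝ) ^ 2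

theorem costExp_nonneg {n : ℕ} (hn : 2 ≤ n) {Γ : Subgroup (Equiv.Perm (Fin n))} {t : ℝ} (ht : CostExp Γ t) :
    0 ≤ t := by
  rcases ht with ⟨q, hq, -, rfl⟩ | ⟨p, h, σ, -, -, -, rfl⟩ | ⟨p, m, e, -, -, -, rfl⟩
  · refine Real.logb_nonneg (by exact_mod_cast (by omega : 1 < n)) ?_
    exact_mod_cast hq.one_lt.le
  · exact Nat.cast_nonneg _
  · positivity

theorem final_all :
    (∀ (Rel : ℕ → Type) (T : Set (Ax Rel)), T.Finite → (∀ A ∈ T, A.lits.Finite ∧ A.ex.Finite) →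
      ∃ c : ℕ, ∀ (n r : ℕ) (Γ H : Subgroup (Equiv.Perm (Fin n))), 2 ≤ n → H ≤ Γ → Group.IsSolvable H →
        RankLe H r → ∀ R : Refutation T (Fin n), ∃ R' : Refutation T (Fin n), R'.Symm Γ ∧
          R'.size ≤ H.relIndex Γ * (R.size * n ^ (c * (r + 1)))) ∧
    ∀ δ : ℝ, 0 < δ → δ < 1 →
      ∃ (Rel : ℕ → Type) (T : Set (Ax Rel)) (C : ℕ), 0 < C ∧ T.Finite ∧
        (∀ A ∈ T, A.lits.Finite ∧ A.ex.Finite) ∧ ∀ n : ℕ, 2 ≤ n →
          (∃ R : Refutation T (Fin n), R.size ≤ n ^ C ∧ ∀ a, R.C.rank a ≤ C) ∧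
          ∀ (Γ : Subgroup (Equiv.Perm (Fin n))) (t : ℝ), CostExp Γ t →
            ∀ R : Refutation T (Fin n),
              (∀ B : ℕ, LocSymm R Γ B → (2 : ℝ) ^ (t ^ (1 - δ) / C) ≤ R.size * B) ∧
              (R.Symm Γ → (2 : ℝ) ^ (t ^ (1 - δ) / C) ≤ R.size) := by
  constructor
  · intro Rel T hT hl
    exact solv_rank hT hl
  · intro δ h0 h1
    obtain ⟨Rel, T, C, hC, hT, hl, hmain⟩ := chapterC δ h0 h1
    refine ⟨Rel, T, 288 * C, by omega, hT, hl, fun n hn => ?_⟩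
    obtain ⟨⟨R0, hR0, hr0⟩, hlow⟩ := hmain n hn
    refine ⟨⟨R0, hR0.trans (Nat.pow_le_pow_right (by omega) (by omega)),
      fun a => (hr0 a).trans (by omega)⟩, ?_⟩
    intro Γ t ht R
    have h0t := costExp_nonneg hn ht
    have hC0 : (0 : ℝ) < C := by exact_mod_cast hC
    have hE0 : (0 : ℝ) ≤ t ^ (1 - δ) := Real.rpow_nonneg h0t _
    have key : ∀ B : ℕ, LocSymm R Γ B → (2 : ℝ) ^ (t ^ (1 - δ) / ((144 * C : ℕ) : ℝ)) ≤ R.size * B := by
      intro B hB
      have hcells : ∀ (p : ℕ) (_ : Fact p.Prime) (r : ℕ) (M : H79.CQ.Cells p (Fin n) r), M.H ≤ Γ → t ≤ r →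
          (2 : ℝ) ^ (t ^ (1 - δ) / ((144 * C : ℕ) : ℝ)) ≤ R.size * B := by
        intro p hp r M hM htr
        have hEr : t ^ (1 - δ) ≤ (r : ℝ) ^ (1 - δ) := Real.rpow_le_rpow h0t htr (by linarith)
        refine le_trans (Real.rpow_le_rpow_of_exponent_le (by norm_num) ?_) (hlow Γ p hp r M hM R B hB)
        refine le_trans ?_ (div_le_div_of_nonneg_right hEr hC0.le)
        push_cast
        exact div_le_div_of_nonneg_left hE0 hC0 (by linarith)
      rcases ht with ⟨q, hq, hdiv, rfl⟩ | ⟨p, h, σ, hp, h2, h3, rfl⟩ | ⟨p, m, e, hp, hm, h2, rfl⟩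
      · obtain ⟨p, hp, r, M, hM, hr⟩ := cells_of_dvd hn Γ q hq hdiv
        exact hcells p hp r M hM hr
      · have hpf : Fact p.Prime := ⟨hp⟩
        obtain ⟨M, hM⟩ := cells_of_cycles (fun i => (h2 i).2) h3
        refine hcells p hpf h M ?_ le_rfl
        rw [hM, Subgroup.closure_le]
        rintro _ ⟨i, rfl⟩
        exact (h2 i).1
      · have h4 := H79.TH.lin_price h0 h1 hC hlow p hp m hm e Γ h2 R B hB
        have h5 : ((m : ℝ) ^ 2) ^ (1 - δ) = (m : ℝ) ^ (2 * (1 - δ)) := by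
          rw [← Real.rpow_natCast, ← Real.rpow_mul (Nat.cast_nonneg _)]
          norm_num
        rw [h5]
        exact h4
    obtain ⟨E, hE⟩ : ∃ E : ℝ, E = t ^ (1 - δ) := ⟨_, rfl⟩
    rw [← hE] at hE0 key ⊢
    constructor
    · intro B hB
      refine le_trans (Real.rpow_le_rpow_of_exponent_le (by norm_num) ?_) (key B hB)
      push_cast
      exact div_le_div_of_nonneg_left hE0 (by linarith) (by linarith)
    · intro hs
      have h2 := key R.size (symm_local hs)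
      have h3 : ((2 : ℝ) ^ (E / ((288 * C : ℕ) : ℝ))) ^ 2 ≤ (R.size : ℝ) ^ 2 := by
        rw [← Real.rpow_natCast, ← Real.rpow_mul (by norm_num)]
        have h4 : E / ((288 * C : ℕ) : ℝ) * ((2 : ℕ) : ℝ) = E / ((144 * C : ℕ) : ℝ) := by
          push_cast
          field_simp
          ring
        rw [h4, pow_two (R.size : ℝ)]
        exact h2
      exact le_of_sq_le_sq h3 (Nat.cast_nonneg _)

end Pool.Agent.H42.PS
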