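import Pool.Agent.H42.CS.Defs
import Pool.Agent.H16.LE.Img

/-!
# Symmetric refutations are locally symmetric

If `R` is symmetric under `Γ`, every line of `R` is invariant under a subgroup of `Γ` whose index is at
most the number of the lines.
-/

set_option autoImplicit false

open Set

namespace Pool.Agent.H42.PS

open Pool.Agent.H42.CS (Ax Atom Lit Gate Circuit Step Refutation)
open Pool.Agent.H16.LE (Img mapV)

variable {Rel : ℕ → Type} {n : ℕ} {T : Set (Ax Rel)}

private theorem ps_inj {N : Type} {φ : N → N} (hφ : Function.Injective φ) :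
    Function.Injective (Lit.map φ) := by
  rintro ⟨a, b⟩ ⟨a', b'⟩ h
  have h1 := congrArg Lit.node h
  have h2 := congrArg Lit.pos h
  exact Lit.ext (hφ h1) h2

private theorem ps_comp {N : Type} (f g : Equiv.Perm N) (X : Set (Lit N)) :
    Lit.map (f * g) '' X = Lit.map f '' (Lit.map g '' X) := by
  rw [image_image]
  rfl

/-- the nodes are moved to the images of their formulas -/
theorem act_img {Γ : Subgroup (Equiv.Perm (Fin n))} {R : Refutation T (Fin n)}
    (act : Γ →* Equiv.Perm R.C.N)
    (hact : ∀ (σ : Γ) a, R.C.gate (act σ a) = (R.C.gate a).map (σ : Equiv.Perm (Fin n)) (act σ))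
    (σ : Γ) : ∀ a, Img R.C (σ : Equiv.Perm (Fin n)) a (act σ a) := by
  have key : ∀ k a, R.C.rank a < k → Img R.C (σ : Equiv.Perm (Fin n)) a (act σ a) := by
    intro k
    induction k with
    | zero => intro a ha; omega
    | succ k ih =>
      intro a ha
      have hb : ∀ S : Set (Lit R.C.N), BijOn (Lit.map (act σ)) S (Lit.map (act σ) '' S) := fun S =>
        ((ps_inj (act σ).injective).injOn).bijOn_image
      have hr : ∀ x ∈ (R.C.gate a).children, Img R.C (σ : Equiv.Perm (Fin n)) x.node
          (Lit.map (act σ) x).node := fun x hx => ih _ (by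
        have := R.C.rank_lt a x hx
        omega)
      have hg := hact σ a
      cases h : R.C.gate a with
      | var v =>
        rw [h] at hg
        exact Img.var h hg
      | and S =>
        rw [h] at hg hr
        exact Img.and (Lit.map (act σ)) h hg (hb S) (fun _ _ => rfl) hr
      | sym A S =>
        rw [h] at hg hr
        exact Img.sym (Lit.map (act σ)) h hg (hb S) (fun _ _ => rfl) hr
  exact fun a => key _ a (Nat.lt_succ_self _)

/-- symmetric refutations are locally symmetric -/
theorem symm_local {Γ : Subgroup (Equiv.Perm (Fin n))} {R : Refutation T (Fin n)} (h : R.Symm Γ) :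
    ∀ Λ ∈ R.lines, ∃ H : Subgroup (Equiv.Perm (Fin n)), H ≤ Γ ∧ H.relIndex Γ ≤ R.size ∧
      ∀ g ∈ H, ∀ x ∈ Λ, ∃ y ∈ Λ, y.pos = x.pos ∧ Img R.C g x.node y.node := by
  obtain ⟨act, hact⟩ := h
  intro Λ hΛ
  have hfL : Finite (Lit R.C.N) := Finite.of_injective (fun x : Lit R.C.N => (x.node, x.pos))
    fun a b h => by
      obtain ⟨h1, h2⟩ := Prod.mk.inj h
      exact Lit.ext h1 h2
  have hfin : R.lines.Finite := toFinite _
  have hone : Lit.map (act 1) '' Λ = Λ := by
    rw [map_one]
    exact image_id Λ
  have hmul : ∀ σ τ : Γ, Lit.map (act (σ * τ)) '' Λ = Lit.map (act σ) '' (Lit.map (act τ) '' Λ) := by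
    intro σ τ
    rw [map_mul]
    exact ps_comp _ _ _
  have hinj : ∀ (σ : Γ) (X Y : Set (Lit R.C.N)), Lit.map (act σ) '' X = Lit.map (act σ) '' Y → X = Y :=
    fun σ X Y h => (ps_inj (act σ).injective).image_injective h
  let H' : Subgroup Γ :=
    { carrier := {σ | Lit.map (act σ) '' Λ = Λ}
      one_mem' := hone
      mul_mem' := by
        intro σ τ h1 h2
        change Lit.map (act (σ * τ)) '' Λ = Λ
        rw [hmul, h2, h1]
      inv_mem' := by
        intro σ h1
        change Lit.map (act σ⁻¹) '' Λ = Λ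
        have h2 := hmul σ σ⁻¹
        rw [mul_inv_cancel, hone] at h2
        exact (hinj σ _ _ (h1.trans h2)).symm }
  have hH' : ∀ σ : Γ, σ ∈ H' ↔ Lit.map (act σ) '' Λ = Λ := fun σ => Iff.rfl
  have hidx : H'.index ≤ R.lines.ncard := by
    have h1 : ∀ σ τ : Γ, (QuotientGroup.leftRel H') σ τ →
        Lit.map (act σ) '' Λ = Lit.map (act τ) '' Λ := by
      intro σ τ h
      rw [QuotientGroup.leftRel_apply, hH'] at h
      have h2 := hmul σ (σ⁻¹ * τ)
      rw [mul_inv_cancel_left, h] at h2
      exact h2.symm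
    let F : Γ ⧸ H' → R.lines := fun q => Quotient.liftOn' q
      (fun σ => (⟨Lit.map (act σ) '' Λ, (hact σ).2 Λ hΛ⟩ : R.lines)) fun σ τ h => Subtype.ext (h1 σ τ h)
    have hF : Function.Injective F := by
      intro q q'
      induction q using QuotientGroup.induction_on with
      | _ σ =>
        induction q' using QuotientGroup.induction_on with
        | _ τ =>
          intro h
          have h3 : Lit.map (act σ) '' Λ = Lit.map (act τ) '' Λ := congrArg Subtype.val h
          rw [QuotientGroup.eq, hH', hmul, ← h3, ← hmul, inv_mul_cancel, hone]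
    have hf : Finite R.lines := hfin
    have h4 := Nat.card_le_card_of_injective F hF
    rw [Nat.card_coe_set_eq] at h4
    exact h4
  refine ⟨H'.map Γ.subtype, ?_, ?_, ?_⟩
  · rintro x ⟨σ, _, rfl⟩
    exact σ.2
  · have h1 : (H'.map Γ.subtype).relIndex Γ = H'.index := by
      unfold Subgroup.relIndex
      congr 1
      exact Subgroup.comap_map_eq_self_of_injective Γ.subtype_injective H'
    rw [h1]
    exact hidx.trans (Nat.le_add_left _ _)
  · rintro g ⟨σ, hσ, rfl⟩ x hx
    refine ⟨Lit.map (act σ) x, ?_, rfl, act_img act (fun σ => (hact σ).1) σ x.node⟩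
    have h1 : Lit.map (act σ) x ∈ Lit.map (act σ) '' Λ := mem_image_of_mem _ hx
    rwa [(hH' σ).1 hσ] at h1

end Pool.Agent.H42.PS
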